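import Mathlib

/-!
Interval doublings, congruence uniform lattices, order dimension.
-/

namespace Pool.Agent.Q240.Dim

/-- semidistributive lattice -/
def Semidistributive (L : Type) [Lattice L] : Prop :=
  (∀ x y z : L, x ⊔ y = x ⊔ z → x ⊔ y = x ⊔ (y ⊓ z)) ∧
  (∀ x y z : L, x ⊓ y = x ⊓ z → x ⊓ y = x ⊓ (y ⊔ z))

/-- every element has degree `r` in the Hasse diagram -/
def HasseRegular (L : Type) [Lattice L] (r : ℕ) : Prop :=
  ∀ x : L, {y : L | y ⋖ x ∨ x ⋖ y}.ncard = r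

/-- `L'` is obtained from `L` by doubling (in the sense of Day) some interval `[a, c]`: the
elements of `L'` correspond to the pairs `(x, i)` with `x` in `L`, `i` a bit, where both values of
`i` occur for `x` in `[a, c]` and only `i = false` for `x` outside, and the order is
`(x, i) ≤ (y, j)` iff `x ≤ y` and, in case `x` and `y` are both in `[a, c]`, also `i ≤ j`. -/
def IsIntervalDoubling (L L' : Type) [Lattice L] [Lattice L'] : Prop :=
  ∃ a c : L, a ≤ c ∧ ∃ e : L' ≃ {p : L × Bool // p.1 ∈ Set.Icc a c ∨ p.2 = false},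
    ∀ x y : L', x ≤ y ↔ (e x).1.1 ≤ (e y).1.1 ∧
      ((e x).1.1 ∈ Set.Icc a c → (e y).1.1 ∈ Set.Icc a c → (e x).1.2 ≤ (e y).1.2)

/-- congruence uniform: obtained from a one-element lattice by finitely many interval doublings -/
inductive CongruenceUniform : (L : Type) → Lattice L → Prop
  | one {L : Type} (inst : Lattice L) (h : Subsingleton L) (h' : Nonempty L) :
      CongruenceUniform L inst
  | double {L L' : Type} (inst : Lattice L) (inst' : Lattice L')
      (h : CongruenceUniform L inst) (h' : IsIntervalDoubling L L') : CongruenceUniform L' inst'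

/-- the order of `L` is the intersection of `d` linear orders -/
def HasRealizer (L : Type) [Lattice L] (d : ℕ) : Prop :=
  ∃ R : Fin d → LinearOrder L, ∀ x y : L, x ≤ y ↔ ∀ i, (R i).le x y

/-- order dimension -/
noncomputable def orderDimension (L : Type) [Lattice L] : ℕ := sInf {d | HasRealizer L d}

section Doubling

variable {L : Type} [Lattice L] (a c : L)

/-- internal model of the doubling -/
def Dbl : Type :=
  {p : L × Bool // (p.2 = true → a ≤ p.1) ∧ (a ≤ p.1 → ¬ p.1 ≤ c → p.2 = true)}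

variable {a c}

theorem Dbl.ext' {p q : Dbl a c} (h : p.1.1 = q.1.1) (h' : p.1.2 = true ↔ q.1.2 = true) :
    p = q := by
  apply Subtype.ext
  apply Prod.ext h
  exact Bool.eq_iff_iff.mpr h'

open Classical in
noncomputable instance : Lattice (Dbl a c) where
  le p q := p.1.1 ≤ q.1.1 ∧ (p.1.2 = true → q.1.2 = true)
  le_refl p := ⟨le_refl _, id⟩
  le_trans p q r h h' := ⟨h.1.trans h'.1, fun t => h'.2 (h.2 t)⟩
  le_antisymm p q h h' := Dbl.ext' (le_antisymm h.1 h'.1) ⟨h.2, h'.2⟩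
  sup p q := ⟨(p.1.1 ⊔ q.1.1, p.1.2 || q.1.2 || decide (a ≤ p.1.1 ⊔ q.1.1 ∧ ¬ p.1.1 ⊔ q.1.1 ≤ c)), by
    refine ⟨fun h => ?_, fun h h' => ?_⟩
    · simp only [Bool.or_eq_true, decide_eq_true_eq] at h
      rcases h with (h | h) | h
      · exact (p.2.1 h).trans le_sup_left
      · exact (q.2.1 h).trans le_sup_right
      · exact h.1
    · simp only [Bool.or_eq_true, decide_eq_true_eq]
      exact Or.inr ⟨h, h'⟩⟩
  inf p q := ⟨(p.1.1 ⊓ q.1.1, p.1.2 && q.1.2), by
    refine ⟨fun h => ?_, fun h h' => ?_⟩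
    · simp only [Bool.and_eq_true] at h
      exact le_inf (p.2.1 h.1) (q.2.1 h.2)
    · simp only [Bool.and_eq_true]
      exact ⟨p.2.2 (h.trans inf_le_left) (fun h'' => h' (inf_le_left.trans h'')),
        q.2.2 (h.trans inf_le_right) (fun h'' => h' (inf_le_right.trans h''))⟩⟩
  le_sup_left p q := ⟨le_sup_left, fun h => by simp [h]⟩
  le_sup_right p q := ⟨le_sup_right, fun h => by simp [h]⟩
  sup_le p q r h h' := ⟨sup_le h.1 h'.1, fun t => by
    simp only [Bool.or_eq_true, decide_eq_true_eq] at t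
    rcases t with (t | t) | t
    · exact h.2 t
    · exact h'.2 t
    · exact r.2.2 (t.1.trans (sup_le h.1 h'.1)) (fun h'' => t.2 ((sup_le h.1 h'.1).trans h''))⟩
  inf_le_left p q := ⟨inf_le_left, fun h => by
    simp only [Bool.and_eq_true] at h; exact h.1⟩
  inf_le_right p q := ⟨inf_le_right, fun h => by
    simp only [Bool.and_eq_true] at h; exact h.2⟩
  le_inf p q r h h' := ⟨le_inf h.1 h'.1, fun t => by
    simp only [Bool.and_eq_true]; exact ⟨h.2 t, h'.2 t⟩⟩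

theorem Dbl.le_iff (p q : Dbl a c) :
    p ≤ q ↔ p.1.1 ≤ q.1.1 ∧ (p.1.2 = true → q.1.2 = true) := Iff.rfl

theorem Dbl.sup_fst (p q : Dbl a c) : (p ⊔ q).1.1 = p.1.1 ⊔ q.1.1 := rfl

theorem Dbl.inf_fst (p q : Dbl a c) : (p ⊓ q).1.1 = p.1.1 ⊓ q.1.1 := rfl

theorem Dbl.sup_snd (p q : Dbl a c) : (p ⊔ q).1.2 = true ↔
    (p.1.2 = true ∨ q.1.2 = true ∨ (a ≤ p.1.1 ⊔ q.1.1 ∧ ¬ p.1.1 ⊔ q.1.1 ≤ c)) := by
  classical
  change (p.1.2 || q.1.2 || decide (a ≤ p.1.1 ⊔ q.1.1 ∧ ¬ p.1.1 ⊔ q.1.1 ≤ c)) = true ↔ _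
  simp only [Bool.or_eq_true, decide_eq_true_eq, or_assoc]

theorem Dbl.inf_snd (p q : Dbl a c) : (p ⊓ q).1.2 = true ↔
    (p.1.2 = true ∧ q.1.2 = true) := by
  change (p.1.2 && q.1.2) = true ↔ _
  simp only [Bool.and_eq_true]

theorem Dbl.semidistributive (hL : Semidistributive L) : Semidistributive (Dbl a c) := by
  refine ⟨fun x y z h => ?_, fun x y z h => ?_⟩
  · have h1 : x.1.1 ⊔ y.1.1 = x.1.1 ⊔ z.1.1 := by
      rw [← Dbl.sup_fst, ← Dbl.sup_fst, h]
    have h2 : (x ⊔ y).1.2 = true ↔ (x ⊔ z).1.2 = true := by rw [h]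
    have h3 := hL.1 _ _ _ h1
    refine Dbl.ext' h3 ?_
    rw [Dbl.sup_snd, Dbl.sup_snd] at h2
    rw [Dbl.sup_snd, Dbl.sup_snd, Dbl.inf_snd, Dbl.inf_fst, ← h3]
    rw [← h1] at h2
    tauto
  · have h1 : x.1.1 ⊓ y.1.1 = x.1.1 ⊓ z.1.1 := by
      rw [← Dbl.inf_fst, ← Dbl.inf_fst, h]
    have h2 : (x ⊓ y).1.2 = true ↔ (x ⊓ z).1.2 = true := by rw [h]
    have h3 := hL.2 _ _ _ h1
    refine Dbl.ext' h3 ?_
    rw [Dbl.inf_snd, Dbl.inf_snd] at h2
    rw [Dbl.inf_snd, Dbl.inf_snd, Dbl.sup_snd]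
    constructor
    · rintro ⟨hx, hy⟩
      exact ⟨hx, Or.inl hy⟩
    · rintro ⟨hx, hy | hz | ⟨h4, h5⟩⟩
      · exact ⟨hx, hy⟩
      · exact h2.mpr ⟨hx, hz⟩
      · refine ⟨hx, ?_⟩
        -- a ≤ x, so a ≤ y ⊔ z, x ⊓ y = x ⊓ (y ⊔ z) ≥ a
        have hax : a ≤ x.1.1 := x.2.1 hx
        have haw : a ≤ x.1.1 ⊓ (y.1.1 ⊔ z.1.1) := le_inf hax h4
        rw [← h3] at haw
        have hay : a ≤ y.1.1 := haw.trans inf_le_right
        have haz : a ≤ z.1.1 := by rw [h1] at haw; exact haw.trans inf_le_right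
        by_cases hyc : y.1.1 ≤ c
        · by_cases hzc : z.1.1 ≤ c
          · exact absurd (sup_le hyc hzc) h5
          · exact (h2.mpr ⟨hx, z.2.2 haz hzc⟩).2
        · exact y.2.2 hay hyc

open Classical in
theorem Dbl.isIntervalDoubling (hac : a ≤ c) : IsIntervalDoubling L (Dbl a c) := by
  let f : Dbl a c → {p : L × Bool // p.1 ∈ Set.Icc a c ∨ p.2 = false} := fun p =>
    ⟨(p.1.1, if p.1.1 ∈ Set.Icc a c then p.1.2 else false), by
      by_cases h : p.1.1 ∈ Set.Icc a c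
      · exact Or.inl h
      · right; simp only [if_neg h]⟩
  have hinj : Function.Injective f := by
    intro p q h
    have h1 : p.1.1 = q.1.1 := congrArg (fun t => t.1.1) h
    have h2 : (if p.1.1 ∈ Set.Icc a c then p.1.2 else false)
        = (if q.1.1 ∈ Set.Icc a c then q.1.2 else false) := congrArg (fun t => t.1.2) h
    refine Dbl.ext' h1 ?_
    by_cases hI : p.1.1 ∈ Set.Icc a c
    · rw [if_pos hI, if_pos (h1 ▸ hI)] at h2
      rw [h2]
    · have hI' : ¬ q.1.1 ∈ Set.Icc a c := h1 ▸ hI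
      constructor
      · intro hp
        have ha := p.2.1 hp
        refine q.2.2 (h1 ▸ ha) (fun hc => hI' ⟨h1 ▸ ha, hc⟩)
      · intro hq
        have ha := q.2.1 hq
        refine p.2.2 (h1 ▸ ha) (fun hc => hI ⟨h1 ▸ ha, hc⟩)
  have hsurj : Function.Surjective f := by
    rintro ⟨⟨x, b⟩, hp⟩
    by_cases hI : x ∈ Set.Icc a c
    · refine ⟨⟨(x, b), fun _ => hI.1, fun _ h => absurd hI.2 h⟩, ?_⟩
      apply Subtype.ext
      apply Prod.ext
      · rfl
      · change (if x ∈ Set.Icc a c then b else false) = b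
        rw [if_pos hI]
    · have hb : b = false := by
        rcases hp with h | h
        · exact absurd h hI
        · exact h
      refine ⟨⟨(x, decide (a ≤ x)), fun h => by simpa using h, fun h _ => by simpa using h⟩, ?_⟩
      apply Subtype.ext
      apply Prod.ext
      · rfl
      · change (if x ∈ Set.Icc a c then decide (a ≤ x) else false) = b
        rw [if_neg hI, hb]
  refine ⟨a, c, hac, Equiv.ofBijective f ⟨hinj, hsurj⟩, fun p q => ?_⟩
  change (p.1.1 ≤ q.1.1 ∧ (p.1.2 = true → q.1.2 = true)) ↔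
    (p.1.1 ≤ q.1.1 ∧ (p.1.1 ∈ Set.Icc a c → q.1.1 ∈ Set.Icc a c →
      (if p.1.1 ∈ Set.Icc a c then p.1.2 else false) ≤
        (if q.1.1 ∈ Set.Icc a c then q.1.2 else false)))
  constructor
  · rintro ⟨h1, h2⟩
    refine ⟨h1, fun h3 h4 => ?_⟩
    rw [if_pos h3, if_pos h4, Bool.le_iff_imp]
    exact h2
  · rintro ⟨h1, h2⟩
    refine ⟨h1, fun hp => ?_⟩
    have ha := p.2.1 hp
    by_cases hc : q.1.1 ≤ c
    · have h3 : p.1.1 ∈ Set.Icc a c := ⟨ha, h1.trans hc⟩
      have h4 : q.1.1 ∈ Set.Icc a c := ⟨ha.trans h1, hc⟩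
      have := h2 h3 h4
      rw [if_pos h3, if_pos h4, Bool.le_iff_imp] at this
      exact this hp
    · exact q.2.2 (ha.trans h1) hc

end Doubling

end Pool.Agent.Q240.Dim
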