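import Pool.Agent.Q240.Dim.Enc

namespace Pool.Agent.Q240.Dim

/-! ### covers -/

/-- some `u` in the list is `r`-below `y` -/
def anyR (r : ℕ → ℕ → Bool) (y : ℕ) : List ℕ → Bool
  | [] => false
  | u :: l => bif r u y then true else anyR r y l

theorem anyR_spec {r : ℕ → ℕ → Bool} {y : ℕ} : ∀ {l : List ℕ}, anyR r y l = true →
    ∃ u ∈ l, r u y = true
  | [], h => by simp [anyR] at h
  | u :: l, h => by
    unfold anyR at h
    cases hr : r u y with
    | true => exact ⟨u, List.mem_cons_self, hr⟩
    | false =>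
      rw [hr] at h
      obtain ⟨v, hv, hv'⟩ := anyR_spec h
      exact ⟨v, List.mem_cons_of_mem _ hv, hv'⟩

/-- every `y` in the list `r`-above `x` is `x` or above some element of `U` -/
def covAll (r : ℕ → ℕ → Bool) (x : ℕ) (U : List ℕ) : List ℕ → Bool
  | [] => true
  | y :: l => bif r x y then (bif Nat.beq x y then covAll r x U l else
      (anyR r y U && covAll r x U l)) else covAll r x U l

theorem covAll_spec {r : ℕ → ℕ → Bool} {x : ℕ} {U : List ℕ} : ∀ {l : List ℕ},
    covAll r x U l = true → ∀ y ∈ l, r x y = true → x = y ∨ ∃ u ∈ U, r u y = true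
  | [], _, y, hy, _ => by simp at hy
  | z :: l, h, y, hy, hxy => by
    unfold covAll at h
    rcases List.mem_cons.mp hy with rfl | hy
    · rw [hxy] at h
      cases hb : Nat.beq x y with
      | true => left; exact Nat.eq_of_beq_eq_true hb
      | false =>
        rw [hb] at h
        simp only [cond_true, cond_false, Bool.and_eq_true] at h
        exact Or.inr (anyR_spec h.1)
    · have h' : covAll r x U l = true := by
        cases h1 : r x z with
        | false => rw [h1] at h; exact h
        | true =>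
          rw [h1] at h
          cases h2 : Nat.beq x z with
          | true => rw [h2] at h; exact h
          | false =>
            rw [h2] at h
            simp only [cond_true, cond_false, Bool.and_eq_true] at h
            exact h.2
      exact covAll_spec h' y hy hxy

/-- all elements of the list are in `F` and strictly `r`-above `x` -/
def covIn (r : ℕ → ℕ → Bool) (x : ℕ) (F : List ℕ) : List ℕ → Bool
  | [] => true
  | u :: l => r x u && (not (Nat.beq x u) && (elem u F && covIn r x F l))

theorem covIn_spec {r : ℕ → ℕ → Bool} {x : ℕ} {F : List ℕ} : ∀ {l : List ℕ},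
    covIn r x F l = true → ∀ u ∈ l, r x u = true ∧ x ≠ u ∧ u ∈ F
  | [], _, u, hu => by simp at hu
  | v :: l, h, u, hu => by
    unfold covIn at h
    simp only [Bool.and_eq_true] at h
    rcases List.mem_cons.mp hu with rfl | hu
    · refine ⟨h.1, fun h' => ?_, (elem_iff _ _).mp h.2.2.1⟩
      have h2 := h.2.1
      subst h'
      simp at h2
    · exact covIn_spec h.2.2.2 u hu

/-- `u` is `r`-incomparable to the elements of the list, or equal -/
def indep1 (r : ℕ → ℕ → Bool) (u : ℕ) : List ℕ → Bool
  | [] => true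
  | v :: l => (bif r u v then Nat.beq u v else true) && indep1 r u l

theorem indep1_spec {r : ℕ → ℕ → Bool} {u : ℕ} : ∀ {l : List ℕ},
    indep1 r u l = true → ∀ v ∈ l, r u v = true → u = v
  | [], _, v, hv, _ => by simp at hv
  | w :: l, h, v, hv, huv => by
    unfold indep1 at h
    simp only [Bool.and_eq_true] at h
    rcases List.mem_cons.mp hv with rfl | hv
    · have := h.1
      rw [huv] at this
      exact Nat.eq_of_beq_eq_true this
    · exact indep1_spec h.2 v hv huv

/-- the list `U` is exactly the list of `r`-upper covers of `x` in `F` -/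
def okCov (r : ℕ → ℕ → Bool) (x : ℕ) (F U : List ℕ) : Bool :=
  covIn r x F U && (U.all (fun u => indep1 r u U) && covAll r x U F)

theorem okCov_spec {L : Type} {le : L → L → Prop} (hanti : ∀ x y, le x y → le y x → x = y)
    (htrans : ∀ x y z, le x y → le y z → le x z)
    {e : L → ℕ} {r : ℕ → ℕ → Bool} (hle : ∀ x y, le x y ↔ r (e x) (e y) = true)
    (hinj : Function.Injective e)
    {F : List ℕ} (hmem : ∀ m, m ∈ F ↔ ∃ x, e x = m) {x : L} {U : List ℕ}
    (h : okCov r (e x) F U = true) (y : L) :
    e y ∈ U ↔ (le x y ∧ x ≠ y ∧ ∀ z, le x z → le z y → z = x ∨ z = y) := by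
  unfold okCov at h
  simp only [Bool.and_eq_true, List.all_eq_true] at h
  obtain ⟨h1, h2, h3⟩ := h
  constructor
  · intro hy
    obtain ⟨h4, h5, h6⟩ := covIn_spec h1 _ hy
    refine ⟨(hle _ _).mpr h4, fun h => h5 (by rw [h]), fun z hz hz' => ?_⟩
    by_cases hzx : z = x
    · exact Or.inl hzx
    · right
      rcases covAll_spec h3 (e z) ((hmem _).mpr ⟨z, rfl⟩) ((hle _ _).mp hz) with h7 | ⟨u, hu, hu'⟩
      · exact absurd (hinj h7).symm hzx
      · obtain ⟨w, rfl⟩ := (hmem u).mp (covIn_spec h1 u hu).2.2
        have hwz : le w z := (hle _ _).mpr hu'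
        have hwy : le w y := htrans _ _ _ hwz hz'
        have := indep1_spec (h2 _ hu) _ hy ((hle _ _).mp hwy)
        have hwy' : w = y := hinj this
        subst hwy'
        exact hanti _ _ hz' hwz
  · rintro ⟨h4, h5, h6⟩
    rcases covAll_spec h3 (e y) ((hmem _).mpr ⟨y, rfl⟩) ((hle _ _).mp h4) with h7 | ⟨u, hu, hu'⟩
    · exact absurd (hinj h7) h5
    · obtain ⟨h8, h9, h10⟩ := covIn_spec h1 u hu
      obtain ⟨w, rfl⟩ := (hmem u).mp h10
      rcases h6 w ((hle _ _).mpr h8) ((hle _ _).mpr hu') with h11 | h11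
      · exact absurd (by rw [h11]) h9
      · rw [← h11]; exact hu

/-- reversed submask test -/
def bus (m n : ℕ) : Bool := sub n m

/-- no repetitions -/
def nodupB : List ℕ → Bool
  | [] => true
  | a :: l => not (elem a l) && nodupB l

theorem nodupB_spec : ∀ {l : List ℕ}, nodupB l = true → l.Nodup
  | [], _ => List.nodup_nil
  | a :: l, h => by
    unfold nodupB at h
    simp only [Bool.and_eq_true] at h
    rw [List.nodup_cons]
    refine ⟨fun h' => ?_, nodupB_spec h.2⟩
    rw [← elem_iff] at h'
    rw [h'] at h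
    simp at h

/-- one row of the table of covers -/
def okRow (F : List ℕ) (p : ℕ × List ℕ × List ℕ) : Bool :=
  okCov bus p.1 F p.2.1 && (okCov sub p.1 F p.2.2 &&
    (nodupB (p.2.1 ++ p.2.2) && Nat.beq (p.2.1 ++ p.2.2).length 4))

/-- the table of covers -/
def okTable (F : List ℕ) : List (ℕ × List ℕ × List ℕ) → Bool
  | [] => true
  | p :: l => okRow F p && okTable F l

theorem okTable_spec {F : List ℕ} : ∀ {T : List (ℕ × List ℕ × List ℕ)}, okTable F T = true →
    ∀ p ∈ T, okRow F p = true
  | [], _, p, hp => by simp at hp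
  | q :: T, h, p, hp => by
    unfold okTable at h
    simp only [Bool.and_eq_true] at h
    rcases List.mem_cons.mp hp with rfl | hp
    · exact h.1
    · exact okTable_spec h.2 p hp

theorem regular_of_table {L : Type} [Lattice L] {k : ℕ} {e : L → ℕ}
    (hle : ∀ x y : L, x ≤ y ↔ sub (e x) (e y) = true)
    {F : List ℕ} (hmem : ∀ m, m ∈ F ↔ ∃ x, e x = m)
    {T : List (ℕ × List ℕ × List ℕ)} (hT : okTable F T = true)
    (hF : eqList (T.map Prod.fst) F = true) (hk : k = 4) : HasseRegular L k := by
  subst hk
  have hinj : Function.Injective e := by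
    intro x y hxy
    apply le_antisymm
    · rw [hle, hxy]; exact sub_refl _
    · rw [hle, hxy]; exact sub_refl _
  intro x
  have hx : e x ∈ T.map Prod.fst := by
    rw [eqList_eq _ _ hF]; exact (hmem _).mpr ⟨x, rfl⟩
  obtain ⟨p, hp, hpx⟩ := List.mem_map.mp hx
  have hrow := okTable_spec hT p hp
  unfold okRow at hrow
  simp only [Bool.and_eq_true, hpx] at hrow
  obtain ⟨h1, h2, h3, h4⟩ := hrow
  have hD := fun y => okCov_spec (le := fun a b : L => b ≤ a) (fun a b h h' => le_antisymm h' h)
    (fun a b c h h' => le_trans h' h) (r := bus) (fun a b => hle b a) hinj hmem h1 y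
  have hU := fun y => okCov_spec (le := fun a b : L => a ≤ b) (fun a b h h' => le_antisymm h h')
    (fun a b c h h' => le_trans h h') (r := sub) (fun a b => hle a b) hinj hmem h2 y
  have himg : e '' {y : L | y ⋖ x ∨ x ⋖ y} = {m : ℕ | m ∈ p.2.1 ++ p.2.2} := by
    ext m
    simp only [Set.mem_image, Set.mem_ofPred_eq, List.mem_append]
    constructor
    · rintro ⟨y, hy | hy, rfl⟩
      · left
        rw [hD]
        refine ⟨hy.le, fun h => hy.lt.ne h.symm, fun z hz hz' => ?_⟩
        rcases hy.eq_or_eq hz' hz with h | h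
        · exact Or.inr h
        · exact Or.inl h
      · right
        rw [hU]
        exact ⟨hy.le, hy.lt.ne, fun z hz hz' => hy.eq_or_eq hz hz'⟩
    · rintro (hm | hm)
      · have hmF : m ∈ F := by
          have h1' := h1
          unfold okCov at h1'
          simp only [Bool.and_eq_true] at h1'
          exact (covIn_spec h1'.1 m hm).2.2
        obtain ⟨y, rfl⟩ := (hmem m).mp hmF
        refine ⟨y, Or.inl ?_, rfl⟩
        obtain ⟨h5, h6, h7⟩ := (hD y).mp hm
        rw [covBy_iff_lt_and_eq_or_eq]
        refine ⟨lt_of_le_of_ne h5 (Ne.symm h6), fun z hz hz' => ?_⟩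
        rcases h7 z hz' hz with h | h
        · exact Or.inr h
        · exact Or.inl h
      · have hmF : m ∈ F := by
          have h2' := h2
          unfold okCov at h2'
          simp only [Bool.and_eq_true] at h2'
          exact (covIn_spec h2'.1 m hm).2.2
        obtain ⟨y, rfl⟩ := (hmem m).mp hmF
        refine ⟨y, Or.inr ?_, rfl⟩
        obtain ⟨h5, h6, h7⟩ := (hU y).mp hm
        rw [covBy_iff_lt_and_eq_or_eq]
        exact ⟨lt_of_le_of_ne h5 h6, h7⟩
  rw [← Set.ncard_image_of_injective _ hinj, himg]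
  have h5 : {m : ℕ | m ∈ p.2.1 ++ p.2.2} = (((p.2.1 ++ p.2.2).toFinset : Finset ℕ) : Set ℕ) := by
    ext m; simp
  rw [h5, Set.ncard_coe_finset, List.toFinset_card_of_nodup (nodupB_spec h3)]
  exact Nat.eq_of_beq_eq_true h4

end Pool.Agent.Q240.Dim
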