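import Pool.Agent.Q240.Dim.Base

namespace Pool.Agent.Q240.Dim

/-- submask test -/
def sub (m n : ℕ) : Bool := Nat.beq (Nat.land m n) m

theorem sub_iff (m n : ℕ) : sub m n = true ↔ ∀ i, m.testBit i = true → n.testBit i = true := by
  unfold sub
  rw [Nat.beq_eq]
  constructor
  · intro h i hi
    have h2 : (m &&& n).testBit i = m.testBit i := by
      change (Nat.land m n).testBit i = m.testBit i
      rw [h]
    rw [Nat.testBit_and, hi] at h2
    simpa using h2
  · intro h
    change m &&& n = m
    apply Nat.eq_of_testBit_eq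
    intro i
    rw [Nat.testBit_and]
    cases hm : m.testBit i with
    | false => rfl
    | true => rw [h i hm]; rfl

theorem sub_refl (m : ℕ) : sub m m = true := by
  rw [sub_iff]; exact fun _ h => h

/-- add bit `k` (P = 2 ^ k) if `b` -/
def addBit (P : ℕ) (m : ℕ) (b : Bool) : ℕ := bif b then Nat.lor m P else m

theorem testBit_addBit (k m i : ℕ) (b : Bool) :
    (addBit (2 ^ k) m b).testBit i = (m.testBit i || (b && decide (k = i))) := by
  unfold addBit
  cases b with
  | false => simp
  | true =>
    change (m ||| 2 ^ k).testBit i = _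
    rw [Nat.testBit_or, Nat.testBit_two_pow]
    simp

theorem testBit_high {k m i : ℕ} (hm : m < 2 ^ k) (hi : k ≤ i) : m.testBit i = false :=
  Nat.testBit_lt_two_pow (lt_of_lt_of_le hm (Nat.pow_le_pow_right (by norm_num) hi))

theorem sub_addBit {k m n : ℕ} (hm : m < 2 ^ k) (hn : n < 2 ^ k) (b b' : Bool) :
    sub (addBit (2 ^ k) m b) (addBit (2 ^ k) n b') = true ↔
      (sub m n = true ∧ (b = true → b' = true)) := by
  rw [sub_iff, sub_iff]
  simp only [testBit_addBit, Bool.or_eq_true, Bool.and_eq_true, decide_eq_true_eq]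
  constructor
  · intro h
    refine ⟨fun i hi => ?_, fun hb => ?_⟩
    · rcases h i (Or.inl hi) with h1 | ⟨_, h2⟩
      · exact h1
      · subst h2
        rw [testBit_high hm le_rfl] at hi
        exact absurd hi (by simp)
    · rcases h k (Or.inr ⟨hb, rfl⟩) with h1 | ⟨h1, _⟩
      · rw [testBit_high hn le_rfl] at h1
        exact absurd h1 (by simp)
      · exact h1
  · rintro ⟨h1, h2⟩ i (hi | ⟨hb, hi⟩)
    · exact Or.inl (h1 i hi)
    · exact Or.inr ⟨h2 hb, hi⟩

theorem addBit_lt {k m : ℕ} (hm : m < 2 ^ k) (b : Bool) : addBit (2 ^ k) m b < 2 ^ (k + 1) := by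
  unfold addBit
  cases b with
  | false => exact lt_of_lt_of_le hm (Nat.pow_le_pow_right (by norm_num) (Nat.le_succ k))
  | true =>
    exact Nat.or_lt_two_pow (lt_of_lt_of_le hm (Nat.pow_le_pow_right (by norm_num) (Nat.le_succ k)))
      (Nat.pow_lt_pow_right (by norm_num) (Nat.lt_succ_self k))

/-- one doubling, on the level of lists of masks -/
def step (P a c : ℕ) : List ℕ → List ℕ
  | [] => []
  | m :: F => bif sub a m then (bif sub m c then m :: Nat.lor m P :: step P a c F
      else Nat.lor m P :: step P a c F) else m :: step P a c F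

theorem mem_step (P a c : ℕ) (F : List ℕ) (x : ℕ) :
    x ∈ step P a c F ↔ ∃ m ∈ F, ∃ b : Bool, x = addBit P m b ∧
      (b = true → sub a m = true) ∧ (sub a m = true → ¬ sub m c = true → b = true) := by
  induction F with
  | nil => simp [step]
  | cons m F ih =>
    have key : (x ∈ step P a c (m :: F)) ↔ ((∃ b : Bool, x = addBit P m b ∧
      (b = true → sub a m = true) ∧ (sub a m = true → ¬ sub m c = true → b = true)) ∨
        x ∈ step P a c F) := by
      have hs : step P a c (m :: F) = bif sub a m then (bif sub m c then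
        m :: Nat.lor m P :: step P a c F else Nat.lor m P :: step P a c F)
          else m :: step P a c F := rfl
      rw [hs]
      cases h1 : sub a m with
      | false => simp [addBit]
      | true =>
        cases h2 : sub m c with
        | false => simp [addBit]
        | true => simp [addBit, or_assoc]
    rw [key, ih]
    constructor
    · rintro (⟨b, h⟩ | ⟨m', hm', h⟩)
      · exact ⟨m, List.mem_cons_self, b, h⟩
      · exact ⟨m', List.mem_cons_of_mem _ hm', h⟩
    · rintro ⟨m', hm', b, h⟩
      rcases List.mem_cons.mp hm' with rfl | hm'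
      · exact Or.inl ⟨b, h⟩
      · exact Or.inr ⟨m', hm', b, h⟩

/-- membership test -/
def elem (a : ℕ) : List ℕ → Bool
  | [] => false
  | b :: l => bif Nat.beq a b then true else elem a l

theorem elem_iff (a : ℕ) (l : List ℕ) : elem a l = true ↔ a ∈ l := by
  induction l with
  | nil => simp [elem]
  | cons b l ih =>
    unfold elem
    cases h : Nat.beq a b with
    | true => rw [Nat.beq_eq] at h; simp [h]
    | false =>
      have : a ≠ b := by
        intro h'
        have := Nat.beq_eq ▸ h'
        subst h'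
        simp at h
      simp [ih, this]

/-- equality of lists -/
def eqList : List ℕ → List ℕ → Bool
  | [], [] => true
  | a :: l, b :: l' => Nat.beq a b && eqList l l'
  | _, _ => false

theorem eqList_eq : ∀ l l' : List ℕ, eqList l l' = true → l = l'
  | [], [], _ => rfl
  | a :: l, b :: l', h => by
    unfold eqList at h
    rw [Bool.and_eq_true] at h
    rw [Nat.beq_eq] at h
    rw [h.1, eqList_eq l l' h.2]
  | [], b :: l', h => by simp [eqList] at h
  | a :: l, [], h => by simp [eqList] at h

/-- all doublings are valid and the final list is `G` -/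
def build : ℕ → List (ℕ × ℕ) → List ℕ → List ℕ → Bool
  | _, [], F, G => eqList F G
  | P, p :: l, F, G => elem p.1 F && (elem p.2 F && (sub p.1 p.2 && build (2 * P) l (step P p.1 p.2 F) G))

/-- the list of masks `F` is the encoding of a congruence uniform lattice -/
def Enc (k : ℕ) (F : List ℕ) : Prop :=
  ∃ (L : Type) (inst : Lattice L) (e : L → ℕ), CongruenceUniform L inst ∧
    Semidistributive L ∧ (∀ x, e x < 2 ^ k) ∧ (∀ x y : L, x ≤ y ↔ sub (e x) (e y) = true) ∧
    ∀ m, m ∈ F ↔ ∃ x, e x = m

theorem Enc.step {k : ℕ} {F : List ℕ} {a c : ℕ} (h : Enc k F) (ha : a ∈ F) (hc : c ∈ F)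
    (hac : sub a c = true) : Enc (k + 1) (step (2 ^ k) a c F) := by
  obtain ⟨L, inst, e, hcu, hsd, hlt, hle, hmem⟩ := h
  obtain ⟨xa, rfl⟩ := (hmem a).mp ha
  obtain ⟨xc, rfl⟩ := (hmem c).mp hc
  have hle' : xa ≤ xc := (hle _ _).mpr hac
  refine ⟨Dbl xa xc, inferInstance, fun p => addBit (2 ^ k) (e p.1.1) p.1.2,
    CongruenceUniform.double inst _ hcu (Dbl.isIntervalDoubling hle'), Dbl.semidistributive hsd,
    fun p => addBit_lt (hlt _) _, fun p q => ?_, fun m => ?_⟩
  · rw [sub_addBit (hlt _) (hlt _), Dbl.le_iff, hle]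
  · rw [mem_step]
    constructor
    · rintro ⟨n, hn, b, hx, h1, h2⟩
      obtain ⟨y, rfl⟩ := (hmem n).mp hn
      refine ⟨⟨(y, b), fun h => (hle _ _).mpr (h1 h), fun h h' => h2 ((hle _ _).mp h)
        (fun h'' => h' ((hle _ _).mpr h''))⟩, hx.symm⟩
    · rintro ⟨p, rfl⟩
      refine ⟨e p.1.1, (hmem _).mpr ⟨_, rfl⟩, p.1.2, rfl, fun h => (hle _ _).mp (p.2.1 h),
        fun h h' => p.2.2 ((hle _ _).mpr h) (fun h'' => h' ((hle _ _).mp h''))⟩

theorem Enc.zero : Enc 0 [0] := by
  refine ⟨Unit, inferInstance, fun _ => 0, CongruenceUniform.one _ inferInstance inferInstance,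
    ⟨fun _ _ _ _ => rfl, fun _ _ _ _ => rfl⟩, fun _ => by simp, fun x y => ?_, fun m => ?_⟩
  · simp [sub_refl]
  · simp [eq_comm]

theorem build_enc : ∀ (l : List (ℕ × ℕ)) (k : ℕ) (F G : List ℕ), Enc k F →
    build (2 ^ k) l F G = true → ∃ k', Enc k' G := by
  intro l
  induction l with
  | nil =>
    intro k F G h hb
    unfold build at hb
    rw [← eqList_eq _ _ hb]
    exact ⟨k, h⟩
  | cons p l ih =>
    intro k F G h hb
    unfold build at hb
    simp only [Bool.and_eq_true] at hb
    obtain ⟨h1, h2, h3, h4⟩ := hb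
    rw [elem_iff] at h1 h2
    have hpow : 2 * 2 ^ k = 2 ^ (k + 1) := by rw [pow_succ]; ring
    rw [hpow] at h4
    exact ih (k + 1) _ G (h.step h1 h2 h3) h4

end Pool.Agent.Q240.Dim
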