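import Pool.Agent.Q240.Dim.Enc

namespace Pool.Agent.Q240.Dim

/-! ### existence of a realizer -/

/-- a linear order from a linear order relation -/
@[reducible] noncomputable def mkLinear {L : Type} (s : L → L → Prop) (hs : IsLinearOrder L s) :
    LinearOrder L :=
  { le := s
    le_refl := hs.refl
    le_trans := hs.trans
    le_antisymm := hs.antisymm
    le_total := hs.total
    toDecidableLE := Classical.decRel _ }

theorem exists_realizer (L : Type) [Lattice L] [Finite L] : ∃ d, HasRealizer L d := by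
  classical
  have key : ∀ p : L × L, ∃ R : LinearOrder L, (∀ u v : L, u ≤ v → R.le u v) ∧
      (¬ p.1 ≤ p.2 → ¬ R.le p.1 p.2) := by
    rintro ⟨x, y⟩
    by_cases hxy : x ≤ y
    · obtain ⟨s, hs, hrs⟩ := extend_partialOrder (fun u v : L => u ≤ v)
      exact ⟨mkLinear s hs, fun u v h => hrs u v h, fun h => absurd hxy h⟩
    · let r : L → L → Prop := fun u v => u ≤ v ∨ (u ≤ y ∧ x ≤ v)
      have hr : IsPartialOrder L r :=
        { refl := fun u => Or.inl le_rfl
          trans := by
            rintro u v w (h | h) (h' | h')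
            · exact Or.inl (h.trans h')
            · exact Or.inr ⟨h.trans h'.1, h'.2⟩
            · exact Or.inr ⟨h.1, h.2.trans h'⟩
            · exact absurd (h.2.trans h'.1) hxy
          antisymm := by
            rintro u v (h | h) (h' | h')
            · exact le_antisymm h h'
            · exact absurd (h'.2.trans (h.trans h'.1)) hxy
            · exact absurd (h.2.trans (h'.trans h.1)) hxy
            · exact absurd (h.2.trans h'.1) hxy }
      obtain ⟨s, hs, hrs⟩ := extend_partialOrder r
      refine ⟨mkLinear s hs, fun u v h => hrs u v (Or.inl h), fun _ h => ?_⟩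
      have h1 : s y x := hrs y x (Or.inr ⟨le_rfl, le_rfl⟩)
      have h2 : s x y := h
      have := hs.antisymm _ _ h1 h2
      exact hxy (le_of_eq this.symm)
  choose R hR using key
  obtain ⟨n, ⟨f⟩⟩ := Finite.exists_equiv_fin (L × L)
  refine ⟨n, fun i => R (f.symm i), fun x y => ⟨fun h i => (hR _).1 x y h, fun h => ?_⟩⟩
  by_contra hxy
  have h1 : (R (f.symm (f (x, y)))).le x y := h (f (x, y))
  rw [f.symm_apply_apply] at h1
  exact (hR (x, y)).2 hxy h1

/-! ### no realizer of size at most four -/

/-- every index of the list has colour `t` known through `m` -/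
def allIn (m : List ℕ) : List ℕ → Bool
  | [] => true
  | i :: l => elem i m && allIn m l

theorem allIn_spec {m : List ℕ} : ∀ {l : List ℕ}, allIn m l = true → ∀ i ∈ l, i ∈ m
  | [], _, i, hi => by simp at hi
  | j :: l, h, i, hi => by
    unfold allIn at h
    simp only [Bool.and_eq_true] at h
    rcases List.mem_cons.mp hi with rfl | hi
    · exact (elem_iff _ _).mp h.1
    · exact allIn_spec h.2 i hi

/-- some conflict lies in the colour class `m` -/
def bad (m : List ℕ) : List (List ℕ) → Bool
  | [] => false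
  | q :: c => bif allIn m q then true else bad m c

theorem bad_spec {m : List ℕ} : ∀ {c : List (List ℕ)}, bad m c = true →
    ∃ q ∈ c, ∀ i ∈ q, i ∈ m
  | [], h => by simp [bad] at h
  | q :: c, h => by
    unfold bad at h
    cases hq : allIn m q with
    | true => exact ⟨q, List.mem_cons_self, allIn_spec hq⟩
    | false =>
      rw [hq] at h
      obtain ⟨q', hq', h'⟩ := bad_spec h
      exact ⟨q', List.mem_cons_of_mem _ hq', h'⟩

/-- exhaustive search: every colouring with four colours contains a conflict -/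
def search : List (ℕ × List (List ℕ)) → List ℕ → List ℕ → List ℕ → List ℕ → Bool
  | [], _, _, _, _ => false
  | p :: cs, m0, m1, m2, m3 =>
    (bif bad m0 p.2 then true else search cs (p.1 :: m0) m1 m2 m3) &&
    ((bif bad m1 p.2 then true else search cs m0 (p.1 :: m1) m2 m3) &&
    ((bif bad m2 p.2 then true else search cs m0 m1 (p.1 :: m2) m3) &&
    (bif bad m3 p.2 then true else search cs m0 m1 m2 (p.1 :: m3))))

theorem search_spec (f : ℕ → Fin 4) : ∀ (cs : List (ℕ × List (List ℕ))) (m0 m1 m2 m3 : List ℕ),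
    (∀ i ∈ m0, f i = 0) → (∀ i ∈ m1, f i = 1) → (∀ i ∈ m2, f i = 2) → (∀ i ∈ m3, f i = 3) →
    search cs m0 m1 m2 m3 = true → ∃ p ∈ cs, ∃ q ∈ p.2, ∀ i ∈ q, f i = f p.1
  | [], m0, m1, m2, m3, _, _, _, _, h => by simp [search] at h
  | p :: cs, m0, m1, m2, m3, h0, h1, h2, h3, h => by
    unfold search at h
    simp only [Bool.and_eq_true] at h
    obtain ⟨g0, g1, g2, g3⟩ := h
    have hcons : ∀ (m : List ℕ) (t : Fin 4), f p.1 = t → (∀ i ∈ m, f i = t) →
        ∀ i ∈ p.1 :: m, f i = t := by
      intro m t ht hm i hi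
      rcases List.mem_cons.mp hi with rfl | hi
      · exact ht
      · exact hm i hi
    have hbad : ∀ (m : List ℕ) (t : Fin 4), f p.1 = t → (∀ i ∈ m, f i = t) → bad m p.2 = true →
        ∃ p' ∈ p :: cs, ∃ q ∈ p'.2, ∀ i ∈ q, f i = f p'.1 := by
      intro m t ht hm hb
      obtain ⟨q, hq, hq'⟩ := bad_spec hb
      exact ⟨p, List.mem_cons_self, q, hq, fun i hi => (hm i (hq' i hi)).trans ht.symm⟩
    have hrec : (∃ p' ∈ cs, ∃ q ∈ p'.2, ∀ i ∈ q, f i = f p'.1) →
        ∃ p' ∈ p :: cs, ∃ q ∈ p'.2, ∀ i ∈ q, f i = f p'.1 := by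
      rintro ⟨p', hp', h'⟩
      exact ⟨p', List.mem_cons_of_mem _ hp', h'⟩
    have h4 : f p.1 = 0 ∨ f p.1 = 1 ∨ f p.1 = 2 ∨ f p.1 = 3 := by
      generalize f p.1 = t
      fin_cases t <;> simp
    rcases h4 with h4 | h4 | h4 | h4
    · cases hb : bad m0 p.2 with
      | true => exact hbad m0 0 h4 h0 hb
      | false =>
        rw [hb] at g0
        exact hrec (search_spec f cs _ _ _ _ (hcons m0 0 h4 h0) h1 h2 h3 g0)
    · cases hb : bad m1 p.2 with
      | true => exact hbad m1 1 h4 h1 hb
      | false =>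
        rw [hb] at g1
        exact hrec (search_spec f cs _ _ _ _ h0 (hcons m1 1 h4 h1) h2 h3 g1)
    · cases hb : bad m2 p.2 with
      | true => exact hbad m2 2 h4 h2 hb
      | false =>
        rw [hb] at g2
        exact hrec (search_spec f cs _ _ _ _ h0 h1 (hcons m2 2 h4 h2) h3 g2)
    · cases hb : bad m3 p.2 with
      | true => exact hbad m3 3 h4 h3 hb
      | false =>
        rw [hb] at g3
        exact hrec (search_spec f cs _ _ _ _ h0 h1 h2 (hcons m3 3 h4 h3) g3)

/-- the closed walk `k0 -> k -> ... -> k0` is an alternating cycle -/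
def cyc (J M : ℕ → ℕ) (N k0 : ℕ) : ℕ → List ℕ → Bool
  | k, [] => Nat.blt k N && sub (J k) (M k0)
  | k, b :: q => Nat.blt k N && (sub (J k) (M b) && cyc J M N k0 b q)

/-- all the conflicts are alternating cycles -/
def confOK (J M : ℕ → ℕ) (N : ℕ) (cs : List (ℕ × List (List ℕ))) : Bool :=
  cs.all (fun p => p.2.all (fun q => cyc J M N p.1 p.1 q))

/-- all pairs `(J i, M i)`, `i < N`, are pairs of elements of `F` with `J i` not below `M i` -/
def pairsOK (J M : ℕ → ℕ) (F : List ℕ) : ℕ → Bool
  | 0 => true
  | n + 1 => (elem (J n) F && (elem (M n) F && not (sub (J n) (M n)))) && pairsOK J M F n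

theorem pairsOK_spec {J M : ℕ → ℕ} {F : List ℕ} : ∀ {n : ℕ}, pairsOK J M F n = true →
    ∀ i < n, J i ∈ F ∧ M i ∈ F ∧ ¬ sub (J i) (M i) = true
  | 0, _, i, hi => by omega
  | n + 1, h, i, hi => by
    unfold pairsOK at h
    simp only [Bool.and_eq_true] at h
    rcases Nat.lt_succ_iff_lt_or_eq.mp hi with hi | rfl
    · exact pairsOK_spec h.2 i hi
    · refine ⟨(elem_iff _ _).mp h.1.1, (elem_iff _ _).mp h.1.2.1, fun h' => ?_⟩
      have := h.1.2.2
      rw [h'] at this
      simp at this

theorem no_realizer {L : Type} [Lattice L] {e : L → ℕ}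
    (hle : ∀ x y : L, x ≤ y ↔ sub (e x) (e y) = true)
    {F : List ℕ} (hmem : ∀ m, m ∈ F ↔ ∃ x, e x = m)
    {J M : ℕ → ℕ} {N : ℕ} {cs : List (ℕ × List (List ℕ))} (hp : pairsOK J M F N = true)
    (hc : confOK J M N cs = true) (hs : search cs [] [] [] [] = true)
    {d : ℕ} (hd : d ≤ 4) : ¬ HasRealizer L d := by
  classical
  rintro ⟨R, hR⟩
  have hex : ∀ i < N, ∃ (j m : L) (t : Fin d), e j = J i ∧ e m = M i ∧ ¬ (R t).le j m := by
    intro i hi
    obtain ⟨h1, h2, h3⟩ := pairsOK_spec hp i hi
    obtain ⟨j, hj⟩ := (hmem _).mp h1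
    obtain ⟨m, hm⟩ := (hmem _).mp h2
    have h4 : ¬ j ≤ m := by rw [hle, hj, hm]; exact h3
    rw [hR] at h4
    obtain ⟨t, ht⟩ := not_forall.mp h4
    exact ⟨j, m, t, hj, hm, ht⟩
  choose jl ml tl h1 h2 h3 using hex
  let f : ℕ → Fin 4 := fun i => if h : i < N then Fin.castLE hd (tl i h) else 0
  obtain ⟨p, hpcs, q, hq, hq'⟩ := search_spec f cs [] [] [] [] (by simp) (by simp) (by simp)
    (by simp) hs
  have hcyc : cyc J M N p.1 p.1 q = true := by
    unfold confOK at hc
    rw [List.all_eq_true] at hc
    have := hc p hpcs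
    rw [List.all_eq_true] at this
    exact this q hq
  have hN : p.1 < N := by
    cases q with
    | nil =>
      unfold cyc at hcyc
      simp only [Bool.and_eq_true] at hcyc
      exact (Nat.blt_eq).mp hcyc.1
    | cons b q =>
      unfold cyc at hcyc
      simp only [Bool.and_eq_true] at hcyc
      exact (Nat.blt_eq).mp hcyc.1
  have main : ∀ (q : List ℕ) (k : ℕ) (hk : k < N), (∀ i ∈ q, f i = f p.1) →
      cyc J M N p.1 k q = true → (R (tl p.1 hN)).le (jl k hk) (ml p.1 hN) := by
    intro q
    induction q with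
    | nil =>
      intro k hk _ h
      unfold cyc at h
      simp only [Bool.and_eq_true] at h
      have : jl k hk ≤ ml p.1 hN := by rw [hle, h1, h2]; exact h.2
      exact (hR _ _).mp this _
    | cons b q ih =>
      intro k hk hf h
      unfold cyc at h
      simp only [Bool.and_eq_true] at h
      have hb : b < N := by
        cases q with
        | nil =>
          have := h.2.2
          unfold cyc at this
          simp only [Bool.and_eq_true] at this
          exact (Nat.blt_eq).mp this.1
        | cons b' q' =>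
          have := h.2.2
          unfold cyc at this
          simp only [Bool.and_eq_true] at this
          exact (Nat.blt_eq).mp this.1
      have hfb := hf b List.mem_cons_self
      have htb : tl b hb = tl p.1 hN := by
        simp only [f, dif_pos hb, dif_pos hN] at hfb
        exact Fin.castLE_injective hd hfb
      have h5 : jl k hk ≤ ml b hb := by rw [hle, h1, h2]; exact h.2.1
      have h6 := (hR _ _).mp h5 (tl p.1 hN)
      have h7 : (R (tl p.1 hN)).le (ml b hb) (jl b hb) := by
        rcases (R (tl p.1 hN)).le_total (ml b hb) (jl b hb) with h | h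
        · exact h
        · rw [← htb] at h
          exact absurd h (h3 b hb)
      have h8 := ih b hb (fun i hi => hf i (List.mem_cons_of_mem _ hi)) h.2.2
      exact (R (tl p.1 hN)).le_trans _ _ _ h6 ((R (tl p.1 hN)).le_trans _ _ _ h7 h8)
  exact h3 p.1 hN (main q p.1 hN hq' hcyc)

theorem four_lt_orderDimension {L : Type} [Lattice L] [Finite L]
    (h : ∀ d ≤ 4, ¬ HasRealizer L d) : 4 < orderDimension L := by
  by_contra h'
  have hne : {d | HasRealizer L d}.Nonempty := exists_realizer L
  exact h _ (not_lt.mp h') (Nat.sInf_mem hne)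

end Pool.Agent.Q240.Dim
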